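import Mathlib
import Pool.Agent.Results.MP_8fdcc7_lc.FubiniProducts
import Pool.Agent.Helper292.ForceCH

/-!
# MP_8fdcc7_lc: Q1 has a positive answer

First half: there is a forcing notion all of whose conditions force, over any ground model, that
`ω₁` is preserved and that the continuum hypothesis holds.  Second half: the continuum hypothesis
gives a nonprincipal ultrafilter `U` on `ℕ` which is not a p-point and for which `(U, ⊇*)` is
strictly below `(U, ⊇)` in the Tukey order.
-/

set_option autoImplicit false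

open Cardinal
open Pool.Agent.Helper292.ForceCH (OmegaOnePreserved CHHolds)
open Pool.Agent.H341Q.TU

namespace Pool.Agent.Results.MP_8fdcc7_lc.ConsistentlyYes

/-- Some forcing notion preserves `ω₁` and forces the continuum hypothesis over any ground model;
and under the continuum hypothesis some nonprincipal ultrafilter `U` on `ℕ` is not a p-point and
satisfies `(U, ⊇*) <_T (U, ⊇)`. -/
theorem result :
    (∃ (P : Type) (_ : Preorder P), Nonempty P ∧
      ∀ p : P, p ∈ OmegaOnePreserved P ∧ p ∈ CHHolds P) ∧
    ((ℵ₁ : Cardinal.{0}) = 𝔠 →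
      ∃ U : Ultrafilter ℕ, NonPrin U ∧ ¬ IsPPt U ∧
        TukLE (AlmOrd U) (InclOrd U) ∧ ¬ TukLE (InclOrd U) (AlmOrd U)) := by
  refine ⟨?_, fun hCH => ?_⟩
  · obtain ⟨P, hP, hne, h⟩ := Pool.Agent.Helper292.ForceCH.exists_forcing
    exact ⟨P, hP, hne, fun p => ⟨(h p).1, (h p).2.2⟩⟩
  · exact Pool.Agent.Results.MP_8fdcc7_lc.FubiniProducts.result.2.2.2 hCH.symm

end Pool.Agent.Results.MP_8fdcc7_lc.ConsistentlyYes
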